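import Mathlib

/-!
# MP_1818ed_co, part Aff: cosets which do not cover

`X j` (`j` in a finite set of layers) are finite abelian groups, `K j v` subgroups of `X j`.  If for
every set `T` of indices the number of prime factors of the product of the indices of
`⋂_{v ∈ T} K j v` is at least `|T|` then the indices `v` can be distributed over the layers in such a
way that in no layer the cosets of the subgroups `K j v` cover the group.
-/

set_option autoImplicit false

namespace Pool.Agent.Lib.MP_1818ed_co.Aff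

open ArithmeticFunction

theorem omega_le_of_dvd {a b : ℕ} (hb : b ≠ 0) (h : a ∣ b) :
    cardFactors a ≤ cardFactors b := by
  obtain ⟨c, rfl⟩ := h
  have ha : a ≠ 0 := fun h0 => hb (by rw [h0, zero_mul])
  have hc : c ≠ 0 := fun h0 => hb (by rw [h0, mul_zero])
  rw [cardFactors_mul ha hc]
  exact Nat.le_add_right _ _

section groups

variable {X : Type} [AddCommGroup X] [Finite X]

theorem relIndex_ne_zero (A Y : AddSubgroup X) : A.relIndex Y ≠ 0 := by
  have : Finite (↥Y ⧸ A.addSubgroupOf Y) := inferInstance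
  exact AddSubgroup.index_ne_zero_of_finite

/-- the second isomorphism theorem, for indices -/
theorem relIndex_inf_mul_sup (A B Y : AddSubgroup X) (hA : A ≤ Y) (hB : B ≤ Y) :
    (A ⊓ B).relIndex Y * (A ⊔ B).relIndex Y = A.relIndex Y * B.relIndex Y := by
  have h1 : (A ⊓ B).relIndex A * A.relIndex Y = (A ⊓ B).relIndex Y :=
    AddSubgroup.relIndex_mul_relIndex _ _ _ inf_le_left hA
  have h2 : B.relIndex (A ⊔ B) * (A ⊔ B).relIndex Y = B.relIndex Y :=
    AddSubgroup.relIndex_mul_relIndex _ _ _ le_sup_right (sup_le hA hB)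
  have h3 : B.relIndex (A ⊔ B) = B.relIndex A := AddSubgroup.relIndex_sup_right _ _
  have h4 : (A ⊓ B).relIndex A = B.relIndex A := AddSubgroup.inf_relIndex_left _ _
  rw [← h1, ← h2, h3, h4]
  ring

theorem omega_inf_add_sup (A B Y : AddSubgroup X) (hA : A ≤ Y) (hB : B ≤ Y) :
    cardFactors ((A ⊓ B).relIndex Y) + cardFactors ((A ⊔ B).relIndex Y) =
      cardFactors (A.relIndex Y) + cardFactors (B.relIndex Y) := by
  rw [← cardFactors_mul (relIndex_ne_zero _ _) (relIndex_ne_zero _ _),
    ← cardFactors_mul (relIndex_ne_zero _ _) (relIndex_ne_zero _ _),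
    relIndex_inf_mul_sup A B Y hA hB]

/-- a proper subgroup of a finite abelian group is contained in a subgroup of prime index -/
theorem exists_index_prime (n : ℕ) : ∀ A : AddSubgroup X, A.index ≤ n → A ≠ ⊤ →
    ∃ H : AddSubgroup X, A ≤ H ∧ H.index.Prime := by
  induction n with
  | zero =>
    intro A h _
    exact absurd (Nat.le_zero.1 h) AddSubgroup.index_ne_zero_of_finite
  | succ n ih =>
    intro A hn hA
    by_cases hp : A.index.Prime
    · exact ⟨A, le_rfl, hp⟩
    have h1 : A.index ≠ 1 := fun h => hA (AddSubgroup.index_eq_one.1 h)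
    obtain ⟨p, hpp, hpd⟩ := Nat.exists_prime_and_dvd h1
    have : Fact p.Prime := ⟨hpp⟩
    have hcard : Nat.card (X ⧸ A) = A.index := rfl
    obtain ⟨x, hx⟩ := exists_prime_addOrderOf_dvd_card' (G := X ⧸ A) p (by rw [hcard]; exact hpd)
    have hz : Nat.card (AddSubgroup.zmultiples x) = p := by rw [Nat.card_zmultiples, hx]
    have hmul : Nat.card (AddSubgroup.zmultiples x) * (AddSubgroup.zmultiples x).index =
        Nat.card (X ⧸ A) := AddSubgroup.card_mul_index _
    have hidx : ((AddSubgroup.zmultiples x).comap (QuotientAddGroup.mk' A)).index =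
        (AddSubgroup.zmultiples x).index :=
      AddSubgroup.index_comap_of_surjective _ (QuotientAddGroup.mk'_surjective A)
    rw [hz, hcard] at hmul
    have hpos : 0 < (AddSubgroup.zmultiples x).index :=
      Nat.pos_of_ne_zero AddSubgroup.index_ne_zero_of_finite
    have hlt : (AddSubgroup.zmultiples x).index < A.index := by
      rw [← hmul]
      have := hpp.two_le
      nlinarith
    obtain ⟨H, hH, hHp⟩ := ih ((AddSubgroup.zmultiples x).comap (QuotientAddGroup.mk' A))
      (by rw [hidx]; omega) (by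
        intro h
        have h2 : (AddSubgroup.zmultiples x).index = 1 := by
          rw [← hidx, h, AddSubgroup.index_top]
        rw [h2, mul_one] at hmul
        exact hp (hmul ▸ hpp))
    refine ⟨H, le_trans ?_ hH, hHp⟩
    intro a ha
    rw [AddSubgroup.mem_comap]
    have : (QuotientAddGroup.mk' A) a = 0 := (QuotientAddGroup.eq_zero_iff a).2 ha
    rw [this]
    exact zero_mem _

theorem exists_relIndex_prime (A Y : AddSubgroup X) (hA : A ≤ Y) (hne : A ≠ Y) :
    ∃ H : AddSubgroup X, A ≤ H ∧ H ≤ Y ∧ (H.relIndex Y).Prime := by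
  have h1 : A.addSubgroupOf Y ≠ ⊤ := by
    intro h
    exact hne (le_antisymm hA (AddSubgroup.addSubgroupOf_eq_top.1 h))
  obtain ⟨H, hH, hp⟩ := exists_index_prime _ (A.addSubgroupOf Y) le_rfl h1
  refine ⟨H.map Y.subtype, ?_, ?_, ?_⟩
  · intro a ha
    exact ⟨⟨a, hA ha⟩, hH ha, rfl⟩
  · rintro _ ⟨a, _, rfl⟩
    exact a.2
  · have h2 : (H.map Y.subtype).addSubgroupOf Y = H := by
      rw [AddSubgroup.addSubgroupOf, AddSubgroup.comap_map_eq_self_of_injective
        (AddSubgroup.subtype_injective Y)]
    rw [AddSubgroup.relIndex, h2]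
    exact hp

/-- the rank after the restriction to a subgroup `H` of prime index -/
theorem omega_restrict (A Y H : AddSubgroup X) (hA : A ≤ Y) (hH : H ≤ Y)
    (hp : (H.relIndex Y).Prime) :
    (A ≤ H ∧ cardFactors (A.relIndex Y) = cardFactors (A.relIndex H) + 1) ∨
      cardFactors (A.relIndex Y) = cardFactors (A.relIndex H) := by
  by_cases h : A ≤ H
  · left
    refine ⟨h, ?_⟩
    rw [← AddSubgroup.relIndex_mul_relIndex A H Y h hH,
      cardFactors_mul (relIndex_ne_zero _ _) (relIndex_ne_zero _ _),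
      cardFactors_eq_one_iff_prime.2 hp]
  · right
    have h1 : H.relIndex (A ⊔ H) * (A ⊔ H).relIndex Y = H.relIndex Y :=
      AddSubgroup.relIndex_mul_relIndex _ _ _ le_sup_right (sup_le hA hH)
    have h2 : H.relIndex (A ⊔ H) ≠ 1 := by
      intro h2
      rw [AddSubgroup.relIndex_eq_one] at h2
      exact h (le_sup_left.trans h2)
    have h3 : (A ⊔ H).relIndex Y = 1 := by
      rcases (Nat.dvd_prime hp).1 ⟨_, h1.symm⟩ with h4 | h4
      · exact absurd h4 h2
      · rw [h4] at h1
        exact Nat.eq_of_mul_eq_mul_left hp.pos (by rw [h1, mul_one])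
    have h5 := relIndex_inf_mul_sup A H Y hA hH
    rw [h3, mul_one, ← AddSubgroup.relIndex_mul_relIndex (A ⊓ H) H Y inf_le_right hH,
      AddSubgroup.inf_relIndex_right] at h5
    rw [Nat.eq_of_mul_eq_mul_right hp.pos h5]

end groups

section main

variable {ι J : Type} [DecidableEq ι] [Fintype J] [DecidableEq J] {X : J → Type}
  [∀ j, AddCommGroup (X j)] [∀ j, Finite (X j)]

/-- the rank of a set of indices in one layer -/
noncomputable def rkj (K : ∀ j, ι → AddSubgroup (X j)) (Y : ∀ j, AddSubgroup (X j))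
    (j : J) (T : Finset ι) : ℕ :=
  cardFactors ((T.inf (K j) ⊓ Y j).relIndex (Y j))

/-- the rank of a set of indices -/
noncomputable def rk (K : ∀ j, ι → AddSubgroup (X j)) (Y : ∀ j, AddSubgroup (X j))
    (T : Finset ι) : ℕ := ∑ j, rkj K Y j T

/-- submodularity in one layer -/
theorem rkj_submod (K : ∀ j, ι → AddSubgroup (X j)) (Y : ∀ j, AddSubgroup (X j)) (j : J)
    (T U : Finset ι) :
    rkj K Y j (T ∪ U) + cardFactors (((T.inf (K j) ⊓ Y j) ⊔ (U.inf (K j) ⊓ Y j)).relIndex (Y j)) =
      rkj K Y j T + rkj K Y j U := by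
  unfold rkj
  rw [← omega_inf_add_sup _ _ _ inf_le_right inf_le_right]
  have : (T ∪ U).inf (K j) ⊓ Y j = T.inf (K j) ⊓ Y j ⊓ (U.inf (K j) ⊓ Y j) := by
    rw [Finset.inf_union, ← inf_inf_distrib_right]
  rw [this]

theorem rkj_inter_le (K : ∀ j, ι → AddSubgroup (X j)) (Y : ∀ j, AddSubgroup (X j)) (j : J)
    (T U : Finset ι) :
    rkj K Y j (T ∩ U) ≤
      cardFactors (((T.inf (K j) ⊓ Y j) ⊔ (U.inf (K j) ⊓ Y j)).relIndex (Y j)) := by
  unfold rkj
  refine omega_le_of_dvd (relIndex_ne_zero _ _) ?_
  refine AddSubgroup.relIndex_dvd_of_le_left _ (sup_le ?_ ?_)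
  · exact inf_le_inf_right _ (Finset.inf_mono Finset.inter_subset_left)
  · exact inf_le_inf_right _ (Finset.inf_mono Finset.inter_subset_right)

/-- the key claim -/
theorem key (K : ∀ j, ι → AddSubgroup (X j)) (S : Finset ι) (Y : ∀ j, AddSubgroup (X j))
    (hS : ∀ T ⊆ S, T.card ≤ rk K Y T) (hne : S.Nonempty) :
    ∃ i ∈ S, ∀ (j : J) (H : AddSubgroup (X j)), H ≤ Y j → H ≠ Y j → K j i ⊓ Y j ≤ H →
      ∀ T ⊆ S, T.Nonempty → i ∉ T → T.inf (K j) ⊓ Y j ≤ H → T.card + 1 ≤ rk K Y T := by
  classical
  by_cases hex : ∃ T ⊆ S, T.Nonempty ∧ rk K Y T = T.card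
  · -- a minimal tight set
    let Fm : Finset (Finset ι) := S.powerset.filter (fun T : Finset ι => T.Nonempty ∧ rk K Y T = T.card)
    have hFne : Fm.Nonempty := by
      obtain ⟨T, hT, h⟩ := hex
      exact ⟨T, Finset.mem_filter.2 ⟨Finset.mem_powerset.2 hT, h⟩⟩
    obtain ⟨T0, hT0, hmin⟩ := Finset.exists_min_image Fm Finset.card hFne
    rw [Finset.mem_filter, Finset.mem_powerset] at hT0
    obtain ⟨hT0S, ⟨i, hi⟩, hT0r⟩ := hT0
    refine ⟨i, hT0S hi, ?_⟩
    intro j H hHY hHne hKi T hTS hTne hiT hTH
    by_contra hcon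
    have hTr : rk K Y T = T.card := by
      have := hS T hTS
      omega
    -- submodularity
    have hsum : rk K Y (T ∪ T0) + ∑ l, cardFactors (((T.inf (K l) ⊓ Y l) ⊔
        (T0.inf (K l) ⊓ Y l)).relIndex (Y l)) = rk K Y T + rk K Y T0 := by
      unfold rk
      rw [← Finset.sum_add_distrib, ← Finset.sum_add_distrib]
      exact Finset.sum_congr rfl (fun l _ => rkj_submod K Y l T T0)
    have hint : rk K Y (T ∩ T0) ≤ ∑ l, cardFactors (((T.inf (K l) ⊓ Y l) ⊔
        (T0.inf (K l) ⊓ Y l)).relIndex (Y l)) := by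
      unfold rk
      exact Finset.sum_le_sum (fun l _ => rkj_inter_le K Y l T T0)
    have hun : (T ∪ T0).card ≤ rk K Y (T ∪ T0) := hS _ (Finset.union_subset hTS hT0S)
    have hcc : (T ∪ T0).card + (T ∩ T0).card = T.card + T0.card := Finset.card_union_add_card_inter _ _
    have hcard : (T ∩ T0).card ≤ rk K Y (T ∩ T0) := hS _ (Finset.inter_subset_left.trans hTS)
    have hempty : T ∩ T0 = ∅ := by
      by_contra hne2
      have hne3 : (T ∩ T0).Nonempty := Finset.nonempty_iff_ne_empty.2 hne2
      have h1 := hmin (T ∩ T0) (Finset.mem_filter.2 ⟨Finset.mem_powerset.2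
        (Finset.inter_subset_left.trans hTS), hne3, by omega⟩)
      have h2 : T ∩ T0 ⊂ T0 := by
        refine Finset.ssubset_iff_subset_ne.2 ⟨Finset.inter_subset_right, ?_⟩
        intro h3
        rw [← h3] at hi
        exact hiT (Finset.mem_inter.1 hi).1
      have := Finset.card_lt_card h2
      omega
    rw [hempty, Finset.card_empty] at hcc
    have hzero : ∑ l, cardFactors (((T.inf (K l) ⊓ Y l) ⊔
        (T0.inf (K l) ⊓ Y l)).relIndex (Y l)) = 0 := by omega
    have hz := Finset.sum_eq_zero_iff.1 hzero j (Finset.mem_univ j)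
    rw [cardFactors_eq_zero_iff_eq_zero_or_one] at hz
    rcases hz with hz | hz
    · exact relIndex_ne_zero _ _ hz
    · rw [AddSubgroup.relIndex_eq_one] at hz
      have h5 : T0.inf (K j) ⊓ Y j ≤ H :=
        (inf_le_inf_right _ (Finset.inf_le hi)).trans hKi
      exact hHne (le_antisymm hHY (hz.trans (sup_le hTH h5)))
  · obtain ⟨i, hi⟩ := hne
    refine ⟨i, hi, ?_⟩
    intro j H _ _ _ T hTS hTne _ _
    have h1 := hS T hTS
    have h2 : rk K Y T ≠ T.card := fun h => hex ⟨T, hTS, hTne, h⟩
    omega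

theorem cover [Nonempty J] (K : ∀ j, ι → AddSubgroup (X j)) (n : ℕ) : ∀ (S : Finset ι)
    (Y : ∀ j, AddSubgroup (X j)), S.card = n → (∀ T ⊆ S, T.card ≤ rk K Y T) →
    ∃ a : ι → J, ∀ (j : J) (t : ι → X j), ∃ x ∈ Y j, ∀ v ∈ S, a v = j → x - t v ∉ K j v := by
  induction n with
  | zero =>
    intro S Y hS _
    rw [Finset.card_eq_zero] at hS
    subst hS
    exact ⟨fun _ => Classical.arbitrary J,
      fun j t => ⟨0, zero_mem _, fun v hv => absurd hv (Finset.notMem_empty v)⟩⟩
  | succ n ih =>
    intro S Y hScard hS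
    have hne : S.Nonempty := by
      rw [← Finset.card_pos]
      omega
    obtain ⟨i, hi, hkey⟩ := key K S Y hS hne
    -- a layer in which `K i` is proper
    have hr1 : 1 ≤ rk K Y {i} := by
      have := hS {i} (Finset.singleton_subset_iff.2 hi)
      rwa [Finset.card_singleton] at this
    obtain ⟨j, -, hj⟩ : ∃ j ∈ (Finset.univ : Finset J), rkj K Y j {i} ≠ 0 := by
      by_contra hcon
      push Not at hcon
      have : rk K Y {i} = 0 := Finset.sum_eq_zero hcon
      omega
    have hprop : K j i ⊓ Y j ≠ Y j := by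
      intro h
      apply hj
      unfold rkj
      rw [Finset.inf_singleton, h, AddSubgroup.relIndex_self, cardFactors_one]
    obtain ⟨H, hKH, hHY, hHp⟩ := exists_relIndex_prime (K j i ⊓ Y j) (Y j) inf_le_right hprop
    have hHne : H ≠ Y j := by
      intro h
      rw [h, AddSubgroup.relIndex_self] at hHp
      exact Nat.not_prime_one hHp
    set Y' : ∀ l, AddSubgroup (X l) := Function.update Y j H with hY'
    have hYj : Y' j = H := Function.update_self _ _ _
    have hYl : ∀ l, l ≠ j → Y' l = Y l := fun l hl => Function.update_of_ne hl _ _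
    have hcond : ∀ T ⊆ S.erase i, T.card ≤ rk K Y' T := by
      intro T hT
      have hTS : T ⊆ S := hT.trans (Finset.erase_subset _ _)
      have hiT : i ∉ T := fun h => Finset.notMem_erase i S (hT h)
      have hsplit : ∀ Z : ∀ l, AddSubgroup (X l), rk K Z T =
          rkj K Z j T + ∑ l ∈ Finset.univ.erase j, rkj K Z l T := by
        intro Z
        unfold rk
        exact (Finset.add_sum_erase _ (fun l => rkj K Z l T) (Finset.mem_univ j)).symm
      have hrest : ∑ l ∈ Finset.univ.erase j, rkj K Y' l T =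
          ∑ l ∈ Finset.univ.erase j, rkj K Y l T := by
        refine Finset.sum_congr rfl (fun l hl => ?_)
        unfold rkj
        rw [hYl l (Finset.ne_of_mem_erase hl)]
      have hjr : rkj K Y' j T = cardFactors ((T.inf (K j) ⊓ Y j).relIndex H) := by
        unfold rkj
        rw [hYj]
        have h1 : T.inf (K j) ⊓ H = (T.inf (K j) ⊓ Y j) ⊓ H := by
          rw [inf_assoc, inf_eq_right.2 hHY]
        rw [h1, AddSubgroup.inf_relIndex_right]
      have h0 := hS T hTS
      rw [hsplit Y] at h0
      rw [hsplit Y', hrest, hjr]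
      rcases omega_restrict (T.inf (K j) ⊓ Y j) (Y j) H inf_le_right hHY hHp with ⟨h1, h2⟩ | h2
      · rcases T.eq_empty_or_nonempty with hTe | hTne
        · rw [hTe, Finset.card_empty]
          exact Nat.zero_le _
        · have h3 := hkey j H hHY hHne hKH T hTS hTne hiT h1
          rw [hsplit Y] at h3
          unfold rkj at h3 ⊢
          omega
      · unfold rkj at h0 ⊢
        omega
    obtain ⟨a, ha⟩ := ih (S.erase i) Y' (by rw [Finset.card_erase_of_mem hi]; omega) hcond
    refine ⟨Function.update a i j, ?_⟩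
    intro l t
    by_cases hl : l = j
    · subst hl
      -- a coset of `H` which avoids the coset of `K i`
      obtain ⟨x0, hx0, hx0'⟩ : ∃ x0 ∈ Y l, ∀ h ∈ H, x0 + h - t i ∉ K l i := by
        by_cases hm : ∃ y0 ∈ Y l, y0 - t i ∈ K l i
        · obtain ⟨y0, hy0, hy0'⟩ := hm
          obtain ⟨z, hz, hzH⟩ : ∃ z ∈ Y l, z ∉ H := by
            by_contra hcon
            push Not at hcon
            exact hHne (le_antisymm hHY hcon)
          refine ⟨y0 + z, add_mem hy0 hz, ?_⟩
          intro h hh hcon
          have h1 : z + h ∈ K l i := by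
            have := sub_mem hcon hy0'
            have h2 : y0 + z + h - t i - (y0 - t i) = z + h := by abel
            rwa [h2] at this
          have h3 : z + h ∈ H := hKH ⟨h1, add_mem hz (hHY hh)⟩
          have h4 := sub_mem h3 hh
          rw [add_sub_cancel_right] at h4
          exact hzH h4
        · push Not at hm
          exact ⟨0, zero_mem _, fun h hh => by
            rw [zero_add]
            exact hm h (hHY hh)⟩
      obtain ⟨x, hx, hx'⟩ := ha l (fun v => t v - x0)
      rw [hYj] at hx
      refine ⟨x0 + x, add_mem hx0 (hHY hx), ?_⟩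
      intro v hv hav
      by_cases hvi : v = i
      · subst hvi
        exact hx0' x hx
      · rw [Function.update_of_ne hvi] at hav
        have h1 := hx' v (Finset.mem_erase.2 ⟨hvi, hv⟩) hav
        have h2 : x - (t v - x0) = x0 + x - t v := by abel
        rwa [h2] at h1
    · obtain ⟨x, hx, hx'⟩ := ha l t
      rw [hYl l hl] at hx
      refine ⟨x, hx, ?_⟩
      intro v hv hav
      by_cases hvi : v = i
      · rw [hvi, Function.update_self] at hav
        exact absurd hav.symm hl
      · rw [Function.update_of_ne hvi] at hav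
        exact hx' v (Finset.mem_erase.2 ⟨hvi, hv⟩) hav

end main

end Pool.Agent.Lib.MP_1818ed_co.Aff
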