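import Mathlib

/-!
# MP_1818ed_co, part Aff: definitions
-/

set_option autoImplicit false

namespace Pool.Agent.Lib.MP_1818ed_co.Aff

/-- The fractional chromatic number of `G` is at most `h`: there are `m ≥ 1` independent sets
(repetitions allowed) such that every vertex lies in at least `m / h` of them. -/
def FracColorable {V : Type} (G : SimpleGraph V) (h : ℕ) : Prop :=
  ∃ (m : ℕ) (I : Fin m → Set V), 0 < m ∧ (∀ i, ∀ u ∈ I i, ∀ v ∈ I i, ¬ G.Adj u v) ∧
    ∀ v : V, m ≤ h * Nat.card {i : Fin m // v ∈ I i}

/-- Strategies for the colours `∏_j W j`, `W j` (`j = 0, …, s - 1`) abelian groups: the guess of `v`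
depends only on the colours of the neighbours of `v`, and its component `j` is an additive map of the
components `j` of the colours seen plus an arbitrary function of the components `l < j` of these
colours: if two colourings agree in all components `l < j` then the components `j` of the two
guesses differ by `φ` of the difference of the components `j` of the colourings, `φ` additive.  For
`s = 1` these are the affine strategies (constant plus homomorphism) for the abelian group `W 0`. -/
structure Triangular {V : Type} (G : SimpleGraph V) (s : ℕ) (W : Fin s → Type)
    [∀ j, AddCommGroup (W j)] (f : V → (V → (j : Fin s) → W j) → (j : Fin s) → W j) : Prop where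
  loc : ∀ (v : V) (c c' : V → (j : Fin s) → W j), (∀ u : V, G.Adj v u → c u = c' u) → f v c = f v c'
  tri : ∀ (v : V) (j : Fin s), ∃ φ : (V → W j) →+ W j, ∀ c c' : V → (j : Fin s) → W j,
    (∀ u : V, ∀ l < j, c u l = c' u l) → f v c j = f v c' j + φ (fun u => c u j - c' u j)

end Pool.Agent.Lib.MP_1818ed_co.Aff
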