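import Pool.Agent.Lib.MP_1818ed_co.Aff.Defs
import Pool.Agent.Lib.MP_1818ed_co.Aff.Cover

/-!
# MP_1818ed_co, part Aff: triangular strategies lose if `χ_f(G) ≤ Ω(q)`
-/

set_option autoImplicit false

namespace Pool.Agent.Lib.MP_1818ed_co.Aff

open ArithmeticFunction (cardFactors cardFactors_mul cardFactors_one cardFactors_pow)

theorem omega_prod {ι : Type} (S : Finset ι) (n : ι → ℕ) (hn : ∀ i ∈ S, n i ≠ 0) :
    cardFactors (∏ i ∈ S, n i) = ∑ i ∈ S, cardFactors (n i) := by
  classical
  induction S using Finset.induction_on with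
  | empty => simp
  | insert i S hi ih =>
    rw [Finset.prod_insert hi, Finset.sum_insert hi,
      cardFactors_mul (hn i (Finset.mem_insert_self i S))
        (Finset.prod_ne_zero_iff.2 (fun j hj => hn j (Finset.mem_insert_of_mem hj))),
      ih (fun j hj => hn j (Finset.mem_insert_of_mem hj))]

/-- averaging: some independent set contains a large part of `T` -/
theorem exists_large {V : Type} {m h : ℕ} (I : Fin m → Set V) (hm : 0 < m)
    (hI : ∀ v : V, m ≤ h * Nat.card {i : Fin m // v ∈ I i}) (T : Finset V) :
    ∃ i : Fin m, ∃ T' ⊆ T, (∀ v ∈ T', v ∈ I i) ∧ T.card ≤ h * T'.card := by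
  classical
  by_contra hcon
  push Not at hcon
  have h1 : ∀ i : Fin m, h * (T.filter (fun v => v ∈ I i)).card < T.card := fun i =>
    hcon i _ (Finset.filter_subset _ _) (fun v hv => (Finset.mem_filter.1 hv).2)
  have h2 : ∑ i : Fin m, h * (T.filter (fun v => v ∈ I i)).card =
      ∑ v ∈ T, h * Nat.card {i : Fin m // v ∈ I i} := by
    rw [← Finset.mul_sum, ← Finset.mul_sum]
    congr 1
    have h3 : ∀ v, Nat.card {i : Fin m // v ∈ I i} =
        ∑ i : Fin m, if v ∈ I i then 1 else 0 := by
      intro v
      rw [← Finset.card_filter, Nat.card_eq_fintype_card, Fintype.card_subtype]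
    simp_rw [h3, Finset.card_filter]
    exact Finset.sum_comm
  have h4 : T.card * m ≤ ∑ v ∈ T, h * Nat.card {i : Fin m // v ∈ I i} := by
    rw [← smul_eq_mul, ← Finset.sum_const]
    exact Finset.sum_le_sum (fun v _ => hI v)
  have h5 : ∑ i : Fin m, h * (T.filter (fun v => v ∈ I i)).card < ∑ _i : Fin m, T.card := by
    apply Finset.sum_lt_sum_of_nonempty
    · exact ⟨⟨0, hm⟩, Finset.mem_univ _⟩
    · exact fun i _ => h1 i
  rw [Finset.sum_const, Finset.card_univ, Fintype.card_fin, smul_eq_mul] at h5
  rw [h2] at h5
  have := lt_of_le_of_lt h4 h5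
  rw [mul_comm] at this
  exact lt_irrefl _ this

/-- the kernel of the error of `v` -/
def ker1 {V W : Type} [AddCommGroup W] (φ : V → ((V → W) →+ W)) (v : V) : AddSubgroup (V → W) :=
  (Pi.evalAddMonoidHom (fun _ : V => W) v - φ v).ker

theorem mem_ker1 {V W : Type} [AddCommGroup W] (φ : V → ((V → W) →+ W)) (v : V) (d : V → W) :
    d ∈ ker1 φ v ↔ d v = φ v d := by
  unfold ker1
  rw [AddMonoidHom.mem_ker, AddMonoidHom.sub_apply, sub_eq_zero]
  rfl

/-- the index of the intersection of the kernels over `T` is at least `|W| ^ |I|` -/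
theorem dvd_index {V W : Type} [Finite V] [AddCommGroup W] [Finite W] (G : SimpleGraph V)
    (φ : V → ((V → W) →+ W)) (hφ : ∀ v, ∀ d : V → W, (∀ u, G.Adj v u → d u = 0) → φ v d = 0)
    (T I : Finset V) (hIT : I ⊆ T) (hI : ∀ u ∈ I, ∀ v ∈ I, ¬ G.Adj u v) :
    Nat.card W ^ I.card ∣ (T.inf (ker1 φ)).index := by
  classical
  have hle : T.inf (ker1 φ) ≤ I.inf (ker1 φ) := Finset.inf_mono hIT
  refine dvd_trans ?_ (AddSubgroup.index_dvd_of_le hle)
  -- the homomorphism of the errors
  let Lm : (V → W) →+ (I → W) :=
    { toFun := fun d v => d v - φ v d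
      map_zero' := by
        funext v
        simp
      map_add' := by
        intro d d'
        funext v
        simp only [Pi.add_apply, map_add]
        abel }
  have hker : Lm.ker ≤ I.inf (ker1 φ) ∧ I.inf (ker1 φ) ≤ Lm.ker := by
    constructor
    · rw [Finset.le_inf_iff]
      intro v hv d hd
      rw [mem_ker1]
      rw [AddMonoidHom.mem_ker] at hd
      have := congrFun hd ⟨v, hv⟩
      exact sub_eq_zero.1 this
    · intro d hd
      rw [AddMonoidHom.mem_ker]
      funext v
      have h1 : d ∈ ker1 φ v.1 := (Finset.inf_le v.2 : I.inf (ker1 φ) ≤ ker1 φ v.1) hd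
      rw [mem_ker1] at h1
      exact sub_eq_zero.2 h1
  rw [← le_antisymm hker.1 hker.2, AddSubgroup.index_ker]
  have hsurj : Function.Surjective Lm := by
    intro w
    refine ⟨fun u => if h : u ∈ I then w ⟨u, h⟩ else 0, ?_⟩
    funext v
    have h0 : φ v.1 (fun u => if h : u ∈ I then w ⟨u, h⟩ else 0) = 0 := by
      apply hφ
      intro u hu
      have hu' : u ∉ I := fun h => hI v.1 v.2 u h hu
      simp [hu']
    show (if h : v.1 ∈ I then w ⟨v.1, h⟩ else 0) -
      φ v.1 (fun u => if h : u ∈ I then w ⟨u, h⟩ else 0) = w v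
    rw [h0, sub_zero, dif_pos v.2]
  have hr : Lm.range = ⊤ := AddMonoidHom.range_eq_top.2 hsurj
  rw [hr]
  have : Nat.card (⊤ : AddSubgroup (I → W)) = Nat.card W ^ I.card := by
    rw [AddSubgroup.card_top, Nat.card_fun, Nat.card_eq_fintype_card (α := I), Fintype.card_coe]
  rw [this]

theorem lose {V : Type} [Finite V] (G : SimpleGraph V) (h s : ℕ) (W : Fin s → Type)
    [∀ j, AddCommGroup (W j)] [∀ j, Finite (W j)] (hG : FracColorable G h)
    (hh : h ≤ cardFactors (Nat.card ((j : Fin s) → W j)))
    (f : V → (V → (j : Fin s) → W j) → (j : Fin s) → W j) (hf : Triangular G s W f) :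
    ∃ c, ∀ v, f v c ≠ c v := by
  classical
  obtain ⟨m, I, hm, hind, hcov⟩ := hG
  rcases isEmpty_or_nonempty V with hV | hV
  · exact ⟨fun v => hV.elim v, fun v => hV.elim v⟩
  rcases Nat.eq_zero_or_pos s with hs | hs
  · exfalso
    subst hs
    have h0 : Nat.card ((j : Fin 0) → W j) = 1 := by
      rw [Nat.card_eq_one_iff_unique]
      exact ⟨inferInstance, inferInstance⟩
    rw [h0, cardFactors_one] at hh
    obtain ⟨v⟩ := hV
    have := hcov v
    rw [Nat.le_zero.1 hh, zero_mul] at this
    omega
  have : Nonempty (Fin s) := ⟨⟨0, hs⟩⟩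
  have : Fintype V := Fintype.ofFinite V
  choose φ hφ using hf.tri
  -- the homomorphisms are local
  have hloc : ∀ (v : V) (j : Fin s) (d : V → W j), (∀ u, G.Adj v u → d u = 0) → φ v j d = 0 := by
    intro v j d hd
    set c : V → (l : Fin s) → W l := fun u => Function.update (0 : (l : Fin s) → W l) j (d u) with hc
    have h1 := hφ v j c 0 (by
      intro u l hl
      rw [hc]
      exact Function.update_of_ne (ne_of_lt hl) _ _)
    have h2 : f v c = f v 0 := by
      apply hf.loc
      intro u hu
      rw [hc]
      show Function.update (0 : (l : Fin s) → W l) j (d u) = 0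
      rw [hd u hu]
      exact Function.update_eq_self j 0
    rw [h2] at h1
    have h3 : (fun u => c u j - (0 : V → (l : Fin s) → W l) u j) = d := by
      funext u
      rw [hc]
      show Function.update (0 : (l : Fin s) → W l) j (d u) j - 0 = d u
      rw [Function.update_self, sub_zero]
    rw [h3] at h1
    exact (left_eq_add.1 h1)
  -- the rank condition
  have hcardq : Nat.card ((j : Fin s) → W j) = ∏ j, Nat.card (W j) := Nat.card_pi
  have hW : ∀ j, Nat.card (W j) ≠ 0 := fun j => Nat.card_pos.ne'
  have hrank : ∀ T ⊆ (Finset.univ : Finset V), T.card ≤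
      rk (X := fun j : Fin s => (V → W j)) (fun j => ker1 (fun v => φ v j)) (fun _ => ⊤) T := by
    intro T _
    obtain ⟨i, T', hT'T, hT'I, hcard⟩ := exists_large I hm hcov T
    have hj : ∀ j : Fin s, T'.card * cardFactors (Nat.card (W j)) ≤
        rkj (X := fun j : Fin s => (V → W j)) (fun j => ker1 (fun v => φ v j)) (fun _ => ⊤) j T := by
      intro j
      unfold rkj
      rw [inf_top_eq, AddSubgroup.relIndex_top_right, ← cardFactors_pow]
      refine omega_le_of_dvd AddSubgroup.index_ne_zero_of_finite ?_
      exact dvd_index G (fun v => φ v j) (fun v d hd => hloc v j d hd) T T' hT'T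
        (fun u hu v hv => hind i u (hT'I u hu) v (hT'I v hv))
    calc T.card ≤ h * T'.card := hcard
      _ ≤ cardFactors (Nat.card ((j : Fin s) → W j)) * T'.card := Nat.mul_le_mul_right _ hh
      _ = ∑ j, T'.card * cardFactors (Nat.card (W j)) := by
          rw [hcardq, omega_prod _ _ (fun j _ => hW j), Finset.sum_mul]
          exact Finset.sum_congr rfl (fun j _ => mul_comm _ _)
      _ ≤ _ := Finset.sum_le_sum (fun j _ => hj j)
  obtain ⟨a, ha⟩ := cover (X := fun j : Fin s => (V → W j)) (fun j => ker1 (fun v => φ v j))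
    (Finset.univ : Finset V).card Finset.univ (fun _ => ⊤) rfl hrank
  -- the layers are treated one after the other
  have hstep : ∀ k : ℕ, k ≤ s → ∃ c : V → (j : Fin s) → W j, ∀ v, (a v).val < k →
      f v c (a v) ≠ c v (a v) := by
    intro k
    induction k with
    | zero => exact fun _ => ⟨0, fun v hv => absurd hv (Nat.not_lt_zero _)⟩
    | succ k ih =>
      intro hk
      obtain ⟨c, hc⟩ := ih (by omega)
      set j : Fin s := ⟨k, hk⟩ with hjdef
      set r : V → W j := fun v => f v c j - φ v j (fun u => c u j) with hr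
      obtain ⟨x, -, hx⟩ := ha j (fun v => Pi.single v (r v))
      set c' : V → (l : Fin s) → W l := fun u => Function.update (c u) j (x u) with hc'
      have hcj : ∀ u, c' u j = x u := fun u => Function.update_self _ _ _
      have hcl : ∀ u l, l ≠ j → c' u l = c u l := fun u l hl => Function.update_of_ne hl _ _
      refine ⟨c', ?_⟩
      intro v hv
      rcases Nat.lt_succ_iff_lt_or_eq.1 hv with hlt | heq
      · -- an earlier layer
        have hne : a v ≠ j := by
          intro h
          rw [h, hjdef] at hlt
          exact lt_irrefl _ hlt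
        have hlj : a v < j := by
          rw [hjdef]
          exact hlt
        have h1 := hφ v (a v) c' c (fun u l hl => hcl u l (ne_of_lt (hl.trans hlj)))
        have h2 : (fun u => c' u (a v) - c u (a v)) = 0 := by
          funext u
          rw [hcl u _ hne]
          exact sub_self _
        rw [h2, map_zero, add_zero] at h1
        rw [h1, hcl v _ hne]
        exact hc v hlt
      · -- the layer `j`
        have hav : a v = j := Fin.ext heq
        have h1 := hx v (Finset.mem_univ v) hav
        rw [mem_ker1] at h1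
        have h2 : φ v j (Pi.single v (r v) : V → W j) = 0 := by
          apply hloc
          intro u hu
          have : u ≠ v := fun h => G.irrefl (h ▸ hu)
          exact Pi.single_eq_of_ne this _
        have h3 := hφ v j c' c (fun u l hl => hcl u l (ne_of_lt hl))
        have h4 : (fun u => c' u j - c u j) = x - (fun u => c u j) := by
          funext u
          rw [hcj u]
          rfl
        rw [h4, map_sub] at h3
        rw [hav]
        intro hcon
        apply h1
        show (x - (Pi.single v (r v) : V → W j)) v = φ v j (x - (Pi.single v (r v) : V → W j))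
        rw [map_sub, h2, sub_zero, Pi.sub_apply, Pi.single_eq_same]
        rw [hcj v] at hcon
        rw [← hcon, h3, hr]
        show f v c j + (φ v j x - φ v j fun u => c u j) - (f v c j - φ v j fun u => c u j) = φ v j x
        abel
  obtain ⟨c, hc⟩ := hstep s le_rfl
  refine ⟨c, fun v hv => hc v (a v).isLt ?_⟩
  rw [hv]

end Pool.Agent.Lib.MP_1818ed_co.Aff
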