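import Pool.Agent.Lib.MP_1818ed_co.Aff.Defs

/-!
# MP_1818ed_co, part Aff: the triple shift graph
-/

set_option autoImplicit false

namespace Pool.Agent.Lib.MP_1818ed_co.Aff

/-- the vertices: triples `a < b < c` -/
structure Tr3 (N : ℕ) where
  a : Fin N
  b : Fin N
  c : Fin N
  hab : a < b
  hbc : b < c

theorem Tr3.ext' {N : ℕ} {x y : Tr3 N} (h1 : x.a = y.a) (h2 : x.b = y.b) (h3 : x.c = y.c) :
    x = y := by
  cases x
  cases y
  simp only at h1 h2 h3
  subst h1
  subst h2
  subst h3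
  rfl

instance (N : ℕ) : Finite (Tr3 N) := by
  refine Finite.of_injective (fun x : Tr3 N => (x.a, x.b, x.c)) ?_
  intro x y h
  simp only [Prod.mk.injEq] at h
  exact Tr3.ext' h.1 h.2.1 h.2.2

/-- the triple shift graph: `(a, b, c)` and `(b, c, d)` are adjacent -/
def shiftGraph (N : ℕ) : SimpleGraph (Tr3 N) where
  Adj x y := (x.b = y.a ∧ x.c = y.b) ∨ (y.b = x.a ∧ y.c = x.b)
  symm := ⟨by
    intro x y h
    exact h.symm⟩
  loopless := ⟨by
    intro x h
    rcases h with ⟨h, _⟩ | ⟨h, _⟩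
    · exact absurd h (ne_of_gt x.hab)
    · exact absurd h (ne_of_gt x.hab)⟩

theorem not_colorable (K : ℕ) : ¬ (shiftGraph (2 ^ 2 ^ K + 1)).Colorable K := by
  classical
  rintro ⟨col⟩
  set N := 2 ^ 2 ^ K + 1 with hN
  -- colour sets of pairs
  let P : Fin N → Fin N → Finset (Fin K) := fun a b =>
    Finset.univ.filter (fun k => ∃ (c : Fin N) (h1 : a < b) (h2 : b < c), col ⟨a, b, c, h1, h2⟩ = k)
  have hP : ∀ a b c : Fin N, a < b → b < c → P a b ≠ P b c := by
    intro a b c hab hbc heq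
    have h1 : col ⟨a, b, c, hab, hbc⟩ ∈ P a b :=
      Finset.mem_filter.2 ⟨Finset.mem_univ _, c, hab, hbc, rfl⟩
    rw [heq] at h1
    obtain ⟨-, d, h2, h3, h4⟩ := Finset.mem_filter.1 h1
    have hadj : (shiftGraph N).Adj ⟨b, c, d, h2, h3⟩ ⟨a, b, c, hab, hbc⟩ := Or.inr ⟨rfl, rfl⟩
    exact col.valid hadj h4
  let Q : Fin N → Finset (Finset (Fin K)) := fun a =>
    Finset.univ.filter (fun S => ∃ b : Fin N, a < b ∧ P a b = S)
  have hQ : Function.Injective Q := by
    have hlt : ∀ a b : Fin N, a < b → Q a ≠ Q b := by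
      intro a b hab heq
      have h1 : P a b ∈ Q a := Finset.mem_filter.2 ⟨Finset.mem_univ _, b, hab, rfl⟩
      rw [heq] at h1
      obtain ⟨-, c, h2, h3⟩ := Finset.mem_filter.1 h1
      exact hP a b c hab h2 h3.symm
    intro a b hab
    rcases lt_trichotomy a b with h | h | h
    · exact absurd hab (hlt a b h)
    · exact h
    · exact absurd hab.symm (hlt b a h)
  have hcard := Fintype.card_le_of_injective Q hQ
  rw [Fintype.card_fin, Fintype.card_finset, Fintype.card_finset, Fintype.card_fin] at hcard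
  omega

/-- local maxima of a permutation -/
theorem fracColorable (N : ℕ) : FracColorable (shiftGraph N) 3 := by
  classical
  let e : Equiv.Perm (Fin N) ≃ Fin (Fintype.card (Equiv.Perm (Fin N))) :=
    Fintype.equivFin (Equiv.Perm (Fin N))
  refine ⟨Fintype.card (Equiv.Perm (Fin N)),
    fun i => {x : Tr3 N | (e.symm i) x.a < (e.symm i) x.b ∧ (e.symm i) x.c < (e.symm i) x.b},
    Fintype.card_pos, ?_, ?_⟩
  · intro i u hu v hv hadj
    have hu1 : (e.symm i) u.a < (e.symm i) u.b := hu.1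
    have hu2 : (e.symm i) u.c < (e.symm i) u.b := hu.2
    have hv1 : (e.symm i) v.a < (e.symm i) v.b := hv.1
    have hv2 : (e.symm i) v.c < (e.symm i) v.b := hv.2
    rcases hadj with ⟨h1, h2⟩ | ⟨h1, h2⟩
    · rw [← h1, ← h2] at hv1
      exact lt_asymm hu2 hv1
    · rw [← h1, ← h2] at hu1
      exact lt_asymm hv2 hu1
  · intro x
    have hab : x.a ≠ x.b := ne_of_lt x.hab
    have hbc : x.b ≠ x.c := ne_of_lt x.hbc
    have hac : x.a ≠ x.c := ne_of_lt (x.hab.trans x.hbc)
    -- the permutations with maximum at `y`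
    let S : Fin N → Finset (Equiv.Perm (Fin N)) := fun y =>
      Finset.univ.filter (fun σ => σ x.a ≤ σ y ∧ σ x.b ≤ σ y ∧ σ x.c ≤ σ y)
    have hcover : (Finset.univ : Finset (Equiv.Perm (Fin N))) ⊆ S x.a ∪ (S x.b ∪ S x.c) := by
      intro σ _
      simp only [Finset.mem_union, Finset.mem_filter, Finset.mem_univ, true_and, S]
      rcases le_total (σ x.a) (σ x.b) with h1 | h1 <;> rcases le_total (σ x.b) (σ x.c) with h2 | h2 <;>
        rcases le_total (σ x.a) (σ x.c) with h3 | h3
      · exact Or.inr (Or.inr ⟨h3, h2, le_rfl⟩)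
      · exact Or.inr (Or.inr ⟨h1.trans h2, h2, le_rfl⟩)
      · exact Or.inr (Or.inl ⟨h1, le_rfl, h2⟩)
      · exact Or.inr (Or.inl ⟨h1, le_rfl, h2⟩)
      · exact Or.inr (Or.inr ⟨h3, h2, le_rfl⟩)
      · exact Or.inl ⟨le_rfl, h1, h3⟩
      · exact Or.inl ⟨le_rfl, h1, h2.trans h1⟩
      · exact Or.inl ⟨le_rfl, h1, h3⟩
    have hSa : (S x.a).card ≤ (S x.b).card := by
      refine Finset.card_le_card_of_injOn (fun σ => (Equiv.swap x.a x.b).trans σ) ?_ ?_
      · intro σ hσ
        have hσ' := (Finset.mem_filter.1 hσ).2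
        refine Finset.mem_coe.2 (Finset.mem_filter.2 ⟨Finset.mem_univ _, ?_⟩)
        simp only [Equiv.trans_apply, Equiv.swap_apply_left, Equiv.swap_apply_right,
          Equiv.swap_apply_of_ne_of_ne hac.symm hbc.symm]
        exact ⟨hσ'.2.1, hσ'.1, hσ'.2.2⟩
      · intro σ _ τ _ h
        exact Equiv.ext (fun y => by
          have := congrArg (fun g : Equiv.Perm (Fin N) => g (Equiv.swap x.a x.b y)) h
          simpa using this)
    have hSc : (S x.c).card ≤ (S x.b).card := by
      refine Finset.card_le_card_of_injOn (fun σ => (Equiv.swap x.c x.b).trans σ) ?_ ?_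
      · intro σ hσ
        have hσ' := (Finset.mem_filter.1 hσ).2
        refine Finset.mem_coe.2 (Finset.mem_filter.2 ⟨Finset.mem_univ _, ?_⟩)
        simp only [Equiv.trans_apply, Equiv.swap_apply_left, Equiv.swap_apply_right,
          Equiv.swap_apply_of_ne_of_ne hac hab]
        exact ⟨hσ'.1, hσ'.2.2, hσ'.2.1⟩
      · intro σ _ τ _ h
        exact Equiv.ext (fun y => by
          have := congrArg (fun g : Equiv.Perm (Fin N) => g (Equiv.swap x.c x.b y)) h
          simpa using this)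
    have hSb : (S x.b).card ≤ Nat.card {i : Fin (Fintype.card (Equiv.Perm (Fin N))) //
        x ∈ {x : Tr3 N | (e.symm i) x.a < (e.symm i) x.b ∧ (e.symm i) x.c < (e.symm i) x.b}} := by
      rw [Nat.card_eq_fintype_card, Fintype.card_subtype]
      refine Finset.card_le_card_of_injOn e ?_ (e.injective.injOn)
      intro σ hσ
      have hσ' := (Finset.mem_filter.1 hσ).2
      refine Finset.mem_coe.2 (Finset.mem_filter.2 ⟨Finset.mem_univ _, ?_⟩)
      show (e.symm (e σ)) x.a < (e.symm (e σ)) x.b ∧ (e.symm (e σ)) x.c < (e.symm (e σ)) x.b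
      rw [Equiv.symm_apply_apply]
      exact ⟨lt_of_le_of_ne hσ'.1 (fun h => hab (σ.injective h)),
        lt_of_le_of_ne hσ'.2.2 (fun h => hbc (σ.injective h).symm)⟩
    have h1 := Finset.card_le_card hcover
    rw [Finset.card_univ] at h1
    have h2 := Finset.card_union_le (S x.a) (S x.b ∪ S x.c)
    have h3 := Finset.card_union_le (S x.b) (S x.c)
    refine le_trans ?_ (Nat.mul_le_mul_left 3 hSb)
    omega

end Pool.Agent.Lib.MP_1818ed_co.Aff
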